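import Pool.Agent.SGB.Stmts
import Pool.Agent.Helper5_SD.En

/-!
# MP_589914_co, squad SGB, row ENE (adapted from `Helper5_SD/En.lean`)
-/

set_option autoImplicit false

open Finset
open scoped Pointwise

namespace Pool.Agent.SGB.H69

universe u

/-- row ENE -/
theorem ene : ENEStmt.{u} := by
  intro H _ _ _ n A B v ρ h1 h2 v0 hρ hv hJ
  have hnn : nn H = (Fintype.card H : ℝ) := by
    unfold nn
    rw [Nat.card_eq_fintype_card]
  rw [hnn]
  let D : Fin n → Finset H := fun i => A i - B i
  let J : H → Finset (Fin n) := fun x => univ.filter fun i => x ∈ D i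
  -- first packing
  have k1 : ∀ i, ∑ j, (((A i + B j) ∩ (A j + B i)).card : ℝ) ≤ Fintype.card H := by
    intro i
    have hd : ∀ j ∈ (univ : Finset (Fin n)), ∀ k ∈ (univ : Finset (Fin n)), j ≠ k →
        Disjoint ((A i + B j) ∩ (A j + B i)) ((A i + B k) ∩ (A k + B i)) := by
      intro j _ k _ hjk
      rw [disjoint_left]
      intro x hx hx'
      rw [mem_inter] at hx hx'
      rcases lt_or_gt_of_ne hjk with h | h
      · have := h2 j i k h
        rw [disjoint_left] at this
        exact this hx.2 hx'.1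
      · have := h2 k i j h
        rw [disjoint_left] at this
        exact this hx'.2 hx.1
    rw [← Nat.cast_sum, ← card_biUnion hd]
    exact_mod_cast card_le_univ _
  -- second packing
  have aux : ∀ j i k : Fin n, i < k →
      Disjoint ((A i - A j) ∩ (B i - B j)) ((A k - A j) ∩ (B k - B j)) := by
    intro j i k hik
    rw [disjoint_left]
    intro x hx hx'
    rw [mem_inter, mem_sub, mem_sub] at hx hx'
    obtain ⟨⟨a, ha, a', ha', e1⟩, -⟩ := hx
    obtain ⟨-, b, hb, b', hb', e2⟩ := hx'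
    have h3 := h2 i j k hik
    rw [disjoint_left] at h3
    have h4 : a + b' = a' + b := by
      have h5 := e1.trans e2.symm
      rw [sub_eq_sub_iff_add_eq_add] at h5
      rw [h5, add_comm]
    refine h3 (add_mem_add ha hb') ?_
    rw [h4]
    exact add_mem_add ha' hb
  have k2 : ∀ j, ∑ i, (((A i - A j) ∩ (B i - B j)).card : ℝ) ≤ Fintype.card H := by
    intro j
    have hd : ∀ i ∈ (univ : Finset (Fin n)), ∀ k ∈ (univ : Finset (Fin n)), i ≠ k →
        Disjoint ((A i - A j) ∩ (B i - B j)) ((A k - A j) ∩ (B k - B j)) := by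
      intro i _ k _ hik
      rcases lt_or_gt_of_ne hik with h | h
      · exact aux j i k h
      · exact (aux j k i h).symm
    rw [← Nat.cast_sum, ← card_biUnion hd]
    exact_mod_cast card_le_univ _
  have s3 : ∑ i, ∑ j, v i j * (((A i - B i) ∩ (A j - B j)).card : ℝ) ≤
      2 * (n * Fintype.card H) := by
    calc ∑ i, ∑ j, v i j * (((A i - B i) ∩ (A j - B j)).card : ℝ)
        ≤ ∑ i, ∑ j, ((((A i + B j) ∩ (A j + B i)).card : ℝ) +
            (((A i - A j) ∩ (B i - B j)).card : ℝ)) :=
          sum_le_sum fun i _ => sum_le_sum fun j _ => hv i j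
      _ = ∑ i, ∑ j, (((A i + B j) ∩ (A j + B i)).card : ℝ) +
            ∑ j, ∑ i, (((A i - A j) ∩ (B i - B j)).card : ℝ) := by
          simp_rw [sum_add_distrib]
          congr 1
          exact sum_comm
      _ ≤ ∑ _i : Fin n, (Fintype.card H : ℝ) + ∑ _j : Fin n, (Fintype.card H : ℝ) :=
          add_le_add (sum_le_sum fun i _ => k1 i) (sum_le_sum fun j _ => k2 j)
      _ = 2 * (n * Fintype.card H) := by simp; ring
  have s1 : ∑ i, ((A i).card : ℝ) * (B i).card = ∑ x : H, ((J x).card : ℝ) := by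
    have e1 : ∀ i, ((A i).card : ℝ) * (B i).card = ∑ x : H, if x ∈ D i then (1 : ℝ) else 0 := by
      intro i
      rw [← Nat.cast_mul, ← SD5.card_sub_of_direct (h1 i)]
      simp [D]
    simp_rw [e1]
    rw [sum_comm]
    refine sum_congr rfl fun x _ => ?_
    simp [J]
  have s2 : ∑ i, ∑ j, v i j * (((A i - B i) ∩ (A j - B j)).card : ℝ) =
      ∑ x : H, ∑ i ∈ J x, ∑ j ∈ J x, v i j := by
    have e1 : ∀ i j, v i j * (((A i - B i) ∩ (A j - B j)).card : ℝ) =
        ∑ x : H, if x ∈ D i then (if x ∈ D j then v i j else 0) else 0 := by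
      intro i j
      have e2 : ∀ x : H, (if x ∈ D i then (if x ∈ D j then v i j else 0) else 0) =
          if x ∈ D i ∩ D j then v i j else 0 := by
        intro x
        by_cases h3 : x ∈ D i <;> by_cases h4 : x ∈ D j <;> simp [h3, h4, mem_inter]
      simp_rw [e2]
      rw [← sum_filter, sum_const, filter_mem_eq_inter, univ_inter, nsmul_eq_mul, mul_comm]
    simp_rw [e1]
    have e3 : ∀ i, ∑ j, ∑ x : H, (if x ∈ D i then (if x ∈ D j then v i j else 0) else 0) =
        ∑ x : H, ∑ j, (if x ∈ D i then (if x ∈ D j then v i j else 0) else 0) := fun i => sum_comm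
    simp_rw [e3]
    rw [sum_comm]
    refine sum_congr rfl fun x _ => ?_
    rw [sum_filter]
    refine sum_congr rfl fun i _ => ?_
    by_cases h3 : x ∈ D i
    · simp only [h3, if_true]
      rw [sum_filter]
    · simp only [h3, if_false, sum_const_zero]
  rw [s2] at s3
  have s4 : ρ * ∑ x : H, ((J x).card : ℝ) ^ 2 ≤ 2 * (n * Fintype.card H) := by
    rw [mul_sum]
    exact (sum_le_sum fun x _ => hJ (J x)).trans s3
  have s5 : (∑ x : H, ((J x).card : ℝ)) ^ 2 ≤
      (Fintype.card H : ℝ) * ∑ x : H, ((J x).card : ℝ) ^ 2 := by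
    have := sq_sum_le_card_mul_sum_sq (s := (univ : Finset H)) (f := fun x => ((J x).card : ℝ))
    rwa [card_univ] at this
  rw [s1]
  calc ρ * (∑ x : H, ((J x).card : ℝ)) ^ 2
      ≤ ρ * ((Fintype.card H : ℝ) * ∑ x : H, ((J x).card : ℝ) ^ 2) :=
        mul_le_mul_of_nonneg_left s5 hρ
    _ = (Fintype.card H : ℝ) * (ρ * ∑ x : H, ((J x).card : ℝ) ^ 2) := by ring
    _ ≤ (Fintype.card H : ℝ) * (2 * (n * Fintype.card H)) :=
        mul_le_mul_of_nonneg_left s4 (Nat.cast_nonneg _)
    _ = 2 * n * (Fintype.card H : ℝ) ^ 2 := by ring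

end Pool.Agent.SGB.H69
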