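import Pool.Agent.SGB.Stmts

/-!
# MP_589914_co, squad SGB, row MNX: the main step
-/

set_option autoImplicit false

open Finset
open scoped Pointwise

namespace Pool.Agent.SGB.H69

universe u

theorem cd_pos {H : Type u} [AddCommGroup H] [Finite H] (A : AddSubgroup H) : 0 < cd A := by
  unfold cd
  exact_mod_cast Nat.card_pos

theorem nn_pos (H : Type u) [AddCommGroup H] [Finite H] : 0 < nn H := by
  unfold nn
  exact_mod_cast Nat.card_pos

theorem kk_pos {H : Type u} [AddCommGroup H] [Finite H] {ι : Type} (S T : ι → AddSubgroup H)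
    (i j : ι) : 0 < kk S T i j := mul_pos (cd_pos _) (cd_pos _)

theorem kk_swap {H : Type u} [AddCommGroup H] {ι : Type} (S T : ι → AddSubgroup H)
    (i j : ι) : kk T S i j = kk S T i j := by
  unfold kk
  rw [inf_comm (T i), inf_comm (T j), mul_comm]

open Classical in
/-- the number of popular elements -/
theorem pop_le (pop : POPStmt.{u}) (H : Type u) [AddCommGroup H] [Fintype H] (ι : Type)
    [Fintype ι] [Nonempty ι] (S T : ι → AddSubgroup H) (r : ℕ) (κ B' V Y : ℝ)
    (hST : ∀ i, S i ⊓ T i = ⊥) (hr : 1 ≤ r) (hκ : 0 < κ) (hB' : 0 < B')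
    (h2 : ∑ k, ∑ l, nn H / kk S T k l ≤ V * (Fintype.card ι : ℝ) ^ 2)
    (h3 : (r : ℝ) ^ 2 * (V / B') ≤ κ ^ 2 / 2)
    (h4 : Real.exp ((2 / r - 1) * Real.log (nn H) + 2 * (1 - 1 / r) * Real.log B') ≤
      Y * (κ ^ r / 2)) :
    ((univ.filter fun v : H =>
      κ * Fintype.card ι ≤ ((univ.filter fun h : ι => v ∈ S h).card : ℝ)).card : ℝ) ≤ Y := by
  have hN : 0 < nn H := nn_pos H
  have hpairs : ((univ.filter fun p : ι × ι => B' * kk S T p.1 p.2 < nn H).card : ℝ) ≤
      V / B' * (Fintype.card ι : ℝ) ^ 2 := by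
    have e1 : ((univ.filter fun p : ι × ι => B' * kk S T p.1 p.2 < nn H).card : ℝ) * B' ≤
        ∑ p : ι × ι, nn H / kk S T p.1 p.2 := by
      calc ((univ.filter fun p : ι × ι => B' * kk S T p.1 p.2 < nn H).card : ℝ) * B'
          = ∑ p ∈ univ.filter (fun p : ι × ι => B' * kk S T p.1 p.2 < nn H), B' := by
            rw [Finset.sum_const, nsmul_eq_mul]
        _ ≤ ∑ p ∈ univ.filter (fun p : ι × ι => B' * kk S T p.1 p.2 < nn H),
              nn H / kk S T p.1 p.2 := by
            refine Finset.sum_le_sum fun p hp => ?_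
            rw [le_div_iff₀ (kk_pos S T _ _)]
            exact (mem_filter.1 hp).2.le
        _ ≤ ∑ p : ι × ι, nn H / kk S T p.1 p.2 :=
            Finset.sum_le_sum_of_subset_of_nonneg (filter_subset _ _)
              fun p _ _ => (div_pos hN (kk_pos S T _ _)).le
    rw [Fintype.sum_prod_type] at e1
    rw [div_mul_eq_mul_div, le_div_iff₀ hB']
    exact e1.trans h2
  have h5 := pop H ι S T hST r κ B' (V / B') hr hκ hB' hpairs h3
  have h6 : 0 < κ ^ r / 2 := by positivity
  exact le_of_mul_le_mul_right (h5.trans h4) h6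

/-- row MNX -/
theorem mnx (sel : SELStmt.{u}) (mas : MASStmt.{u}) (cnt : CNTStmt.{u}) (its : ITSStmt.{u})
    (pop : POPStmt.{u}) (mna : MNAStmt.{u}) (mnb : MNBStmt.{u}) (mnc : MNCStmt.{u})
    (pin : PINStmt.{u}) : MNXStmt.{u} := by
  classical
  intro H _ _ ι _ _ S T q r κ B B' G V Y η μ hST hTS hq hr hκ hB hB' hG hV hY h1 h2 h3 h4 hη hμ
    h5 h6
  have hN : 0 < nn H := nn_pos H
  obtain ⟨n, hn⟩ : ∃ n : ℝ, n = (Fintype.card ι : ℝ) := ⟨_, rfl⟩
  have hn0 : 0 < n := by
    rw [hn]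
    exact_mod_cast Fintype.card_pos
  obtain ⟨a1, a2, a3⟩ := mna H ι S T G hST hG h1
  obtain ⟨M, hM⟩ : ∃ M : ℝ, M = ∑ k, ∑ l, pp S k l := ⟨_, rfl⟩
  have hμ0 : 0 < μ := by
    rw [hμ]
    positivity
  have hη0 : 0 < η := by
    rw [hη]
    positivity
  have hMμ : μ * n ^ 2 ≤ M := by
    rw [hM, hμ, hn]
    refine le_trans (le_of_eq ?_) a2
    ring
  have hM0 : 0 < M := lt_of_lt_of_le (by positivity) hMμ
  rw [← hM] at a1
  -- popular elements
  obtain ⟨PS, hPS⟩ : ∃ PS : Finset H, PS = univ.filter fun v : H =>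
      κ * Fintype.card ι ≤ ((univ.filter fun h : ι => v ∈ S h).card : ℝ) := ⟨_, rfl⟩
  obtain ⟨PT, hPT⟩ : ∃ PT : Finset H, PT = univ.filter fun v : H =>
      κ * Fintype.card ι ≤ ((univ.filter fun h : ι => v ∈ T h).card : ℝ) := ⟨_, rfl⟩
  have cPS : (PS.card : ℝ) ≤ Y := by
    rw [hPS]
    exact pop_le pop H ι S T r κ B' V Y hST hr hκ hB' h2 h3 h4
  have cPT : (PT.card : ℝ) ≤ Y := by
    rw [hPT]
    refine pop_le pop H ι T S r κ B' V Y (fun i => by rw [inf_comm]; exact hST i) hr hκ hB' ?_ h3 h4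
    simp_rw [kk_swap S T]
    exact h2
  have hsq : 0 < Real.sqrt (nn H * B) := Real.sqrt_pos.2 (mul_pos hN hB)
  -- SEL
  obtain ⟨z, hPz, k, hk1, hk2, hk3⟩ := sel H ι (uu S) (fun z k => z ∈ S k)
    (fun z k h => z ∈ zz S T k h) (fun k l => B * kk S T k l < nn H) (fun z => z ∈ PS + PT) q η
    (V / (Real.sqrt (nn H * B) * μ)) (Y ^ 2 * (G / nn H) / μ) M
    (fun k => by
      unfold uu
      have := Real.sqrt_pos.2 (cd_pos (S k))
      positivity)
    (fun z k h hz => (pin H ι S T hST k h).2.2.2.2.2.2.2.2.2 hz) hη0 hq hM0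
    (by
      rw [hM]
      exact ((mas H ι S).1).symm)
    (by
      rw [hη]
      exact a1)
    (by
      have e1 := (mas H ι S).2 (fun k l => B * kk S T k l < nn H)
      have e2 := mnb H ι S T B hST hB
      have e3 : 1 / Real.sqrt (nn H * B) * ∑ k, ∑ l, nn H / kk S T k l ≤
          V / (Real.sqrt (nn H * B) * μ) * M := by
        calc 1 / Real.sqrt (nn H * B) * ∑ k, ∑ l, nn H / kk S T k l
            ≤ 1 / Real.sqrt (nn H * B) * (V * (Fintype.card ι : ℝ) ^ 2) :=
              mul_le_mul_of_nonneg_left h2 (by positivity)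
          _ = V / (Real.sqrt (nn H * B) * μ) * (μ * n ^ 2) := by
              rw [← hn]
              field_simp
          _ ≤ V / (Real.sqrt (nn H * B) * μ) * M :=
              mul_le_mul_of_nonneg_left hMμ (by positivity)
      refine le_trans (le_of_eq ?_) (e2.trans e3)
      refine e1.trans ?_
      refine Finset.sum_congr rfl fun k _ => Finset.sum_congr rfl fun l _ => ?_
      by_cases h : B * kk S T k l < nn H
      · rw [if_pos h]
      · rw [if_neg h])
    (by
      have e1 := mnc H ι S G PS PT hG (fun k => a3 k (hTS k))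
      refine le_trans (le_of_eq ?_) (e1.trans ?_)
      · refine Finset.sum_congr rfl fun z _ => ?_
        by_cases h : z ∈ PS + PT
        · rw [if_pos h, if_pos h]
        · rw [if_neg h, if_neg h]
      have e2 : (PS.card : ℝ) * PT.card ≤ Y * Y :=
        mul_le_mul cPS cPT (Nat.cast_nonneg _) hY.le
      calc (PS.card : ℝ) * PT.card * ((Fintype.card ι : ℝ) ^ 2 * (G / nn H))
          ≤ Y * Y * ((Fintype.card ι : ℝ) ^ 2 * (G / nn H)) :=
            mul_le_mul_of_nonneg_right e2 (by positivity)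
        _ = Y ^ 2 * (G / nn H) / μ * (μ * n ^ 2) := by
            rw [← hn]
            field_simp
        _ ≤ Y ^ 2 * (G / nn H) / μ * M := mul_le_mul_of_nonneg_left hMμ (by positivity))
    h5
  -- CNT
  have hD : ∀ x : H, ((univ.filter fun h : ι => x ∈ S h ∧ z - x ∈ T h).card : ℝ) ≤ κ * n := by
    intro x
    by_contra hcon
    push Not at hcon
    apply hPz
    have hx : x ∈ PS := by
      rw [hPS, mem_filter]
      refine ⟨mem_univ _, ?_⟩
      rw [← hn]
      refine hcon.le.trans ?_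
      exact_mod_cast card_le_card (fun h hh => by
        rw [mem_filter] at hh ⊢
        exact ⟨hh.1, hh.2.1⟩)
    have hx' : z - x ∈ PT := by
      rw [hPT, mem_filter]
      refine ⟨mem_univ _, ?_⟩
      rw [← hn]
      refine hcon.le.trans ?_
      exact_mod_cast card_le_card (fun h hh => by
        rw [mem_filter] at hh ⊢
        exact ⟨hh.1, hh.2.2⟩)
    have := add_mem_add hx hx'
    rwa [add_sub_cancel] at this
  have c1 := cnt H ι S T hST (2 * q) k z (κ * n) (by omega) hD
  have c2 := its H (2 * q) (fun a => S (k a)) (fun a => T (k a)) (⨅ a, S (k a)) B (by omega) hB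
    (fun a => hST (k a)) (fun a => iInf_le _ a) (fun a b hab => not_lt.1 (hk2 a b hab))
  have c3 : cd (⨅ a, S (k a)) ≤ Real.exp ((2 / (2 * q) - 1) * Real.log (nn H) +
      2 * (1 - 1 / (2 * q)) * Real.log B) := by
    rw [← Real.log_le_iff_le_exp (cd_pos _)]
    push_cast at c2
    exact c2
  have c4 : η ^ q / 2 * n ≤ cd (⨅ a, S (k a)) * (κ * n) := by
    rw [hn]
    rw [hn] at c1
    exact hk3.trans c1
  have c5 : cd (⨅ a, S (k a)) * (κ * n) < η ^ q / 2 * n := by
    calc cd (⨅ a, S (k a)) * (κ * n) ≤ Real.exp ((2 / (2 * q) - 1) * Real.log (nn H) +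
          2 * (1 - 1 / (2 * q)) * Real.log B) * (κ * n) :=
          mul_le_mul_of_nonneg_right c3 (by positivity)
      _ = (κ * Real.exp ((2 / (2 * q) - 1) * Real.log (nn H) +
          2 * (1 - 1 / (2 * q)) * Real.log B)) * n := by ring
      _ < η ^ q / 2 * n := mul_lt_mul_of_pos_right h6 hn0
  linarith

end Pool.Agent.SGB.H69
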