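import Pool.Agent.SGB.Stmts

/-!
# MP_589914_co, squad SGB, row TUP
-/

set_option autoImplicit false

open Finset

namespace Pool.Agent.SGB.H69

/-- row TUP -/
theorem tup : TUPStmt := by
  classical
  intro ι _ m a b f F hab
  have hb : b ∈ (univ : Finset (Fin m)).erase a := by simp [hab.symm]
  have key : ∀ x y, ∑ k : Fin m → ι, (∏ c, f (k c)) *
      ((if k a = x then (1 : ℝ) else 0) * (if k b = y then (1 : ℝ) else 0)) =
      (∑ x, f x) ^ (m - 2) * (f x * f y) := by
    intro x y
    obtain ⟨e, he⟩ : ∃ e : Fin m → ι → ℝ, e = fun c j => if c = a then (if j = x then 1 else 0)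
        else if c = b then (if j = y then 1 else 0) else 1 := ⟨_, rfl⟩
    have hea : ∀ j, e a j = if j = x then 1 else 0 := by intro j; rw [he]; simp
    have heb : ∀ j, e b j = if j = y then 1 else 0 := by intro j; rw [he]; simp [hab.symm]
    have hec : ∀ c ∈ ((univ : Finset (Fin m)).erase a).erase b, ∀ j, e c j = 1 := by
      intro c hc j
      rw [mem_erase, mem_erase] at hc
      rw [he]
      simp [hc.1, hc.2.1]
    have h1 : ∀ k : Fin m → ι, (∏ c, f (k c)) *
        ((if k a = x then (1 : ℝ) else 0) * (if k b = y then (1 : ℝ) else 0)) =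
        ∏ c, (f (k c) * e c (k c)) := by
      intro k
      rw [Finset.prod_mul_distrib]
      congr 1
      rw [← Finset.mul_prod_erase univ (fun c => e c (k c)) (mem_univ a),
        ← Finset.mul_prod_erase (univ.erase a) (fun c => e c (k c)) hb,
        Finset.prod_eq_one (fun c hc => hec c hc (k c)), hea, heb, mul_one]
    simp_rw [h1]
    have h2 := Finset.prod_univ_sum (fun _ : Fin m => (univ : Finset ι)) (fun c j => f j * e c j)
    rw [Fintype.piFinset_univ] at h2
    rw [← h2, ← Finset.mul_prod_erase univ (fun c => ∑ j, f j * e c j) (mem_univ a),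
      ← Finset.mul_prod_erase (univ.erase a) (fun c => ∑ j, f j * e c j) hb]
    have h3 : ∏ c ∈ ((univ : Finset (Fin m)).erase a).erase b, ∑ j, f j * e c j =
        (∑ x, f x) ^ (m - 2) := by
      rw [Finset.prod_congr rfl (g := fun _ => ∑ x, f x) (fun c hc => by
        refine Finset.sum_congr rfl fun j _ => ?_
        rw [hec c hc j, mul_one])]
      rw [Finset.prod_const, card_erase_of_mem hb, card_erase_of_mem (mem_univ a), card_univ,
        Fintype.card_fin]
      rfl
    rw [h3]
    simp_rw [hea, heb]
    simp only [mul_ite, mul_one, mul_zero, Finset.sum_ite_eq', mem_univ, if_true]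
    ring
  have h4 : ∀ k : Fin m → ι, (∏ c, f (k c)) * F (k a) (k b) =
      ∑ x, ∑ y, F x y * ((∏ c, f (k c)) *
        ((if k a = x then (1 : ℝ) else 0) * (if k b = y then (1 : ℝ) else 0))) := by
    intro k
    rw [Finset.sum_eq_single (k a), Finset.sum_eq_single (k b)]
    · simp
      ring
    · intro y _ hy
      rw [if_neg (show ¬ k b = y from fun h => hy h.symm)]
      simp
    · simp
    · intro x _ hx
      rw [if_neg (show ¬ k a = x from fun h => hx h.symm)]
      simp
    · simp
  simp_rw [h4]
  rw [Finset.sum_comm, Finset.mul_sum]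
  refine Finset.sum_congr rfl fun x _ => ?_
  rw [Finset.sum_comm, Finset.mul_sum]
  refine Finset.sum_congr rfl fun y _ => ?_
  rw [← Finset.mul_sum, key]
  ring

end Pool.Agent.SGB.H69
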